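import Pool.Agent.Helper76.PB.GoalsV
import Pool.Agent.Helper14.PP.BKUM
import Pool.Agent.Helper88.LE.SUN
import Pool.Agent.Helper42.RD.VAL

/-!
# Project B, packet PB-XINJ: enlarging `Z`
-/

set_option autoImplicit false

namespace Pool.Agent.Helper86.PB

open NumberField Module IsDedekindDomain
open Pool.Agent.Helper51.RP Pool.Agent.Helper42.RD Pool.Agent.Helper42.PP
open Pool.Agent.Helper76.PB

section

variable {F : Type} [Field F] [NumberField F]

theorem mem_unit_iff (Z : Set (HeightOneSpectrum (𝓞 F))) (x : Fˣ) :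
    x ∈ Z.unit F ↔ ∀ w ∉ Z, ordv w (x : F) = 0 := by
  constructor
  · intro h w hw
    rw [ordv_eq_zero_iff w x.ne_zero]
    exact h w hw
  · intro h w hw
    exact (ordv_eq_zero_iff w x.ne_zero).1 (h w hw)

/-- Infinitely many primes at which `u` is not locally a `p`-th power. -/
theorem exists_bad (p : ℕ) [Fact p.Prime] (ε : F) (hε : IsPrimitiveRoot ε p) (u : Fˣ)
    (hu : ¬ Pw p u) (hZ : {w : HeightOneSpectrum (𝓞 F) | w.valuation F (p : F) ≠ 1}.Finite)
    (T : Set (HeightOneSpectrum (𝓞 F))) (hT : T.Finite) :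
    ∃ v, v ∉ T ∧ v.valuation F (p : F) = 1 ∧ ¬ LocPow p v (u : F) := by
  classical
  by_contra hcon
  push Not at hcon
  have hp : p.Prime := Fact.out
  have hx : ¬ ∃ y : F, y ^ p = (u : F) := by
    rintro ⟨y, hy⟩
    have hy0 : y ≠ 0 := by
      rintro rfl
      rw [zero_pow hp.ne_zero] at hy
      exact u.ne_zero hy.symm
    apply hu
    refine ⟨Units.mk0 y hy0, ?_⟩
    apply Units.ext
    rw [Units.val_pow_eq_pow_val, Units.val_mk0, hy]
  set g : HeightOneSpectrum (𝓞 F) → ℝ := fun w =>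
    if w.valuation F (p : F) = 1 ∧ ¬ LocPow p w (u : F) then 1 else 0 with hg
  obtain ⟨C, hC⟩ := Pool.Agent.Helper14.PP.lower p ε (u : F) hε u.ne_zero hx hZ g
    (fun w h1 h2 => by rw [hg]; simp only; rw [if_pos ⟨h1, h2⟩])
    (fun w => by rw [hg]; simp only; split_ifs <;> norm_num)
    (fun w => by rw [hg]; simp only; split_ifs <;> norm_num)
  have hg0 : ∀ w, w ∉ hT.toFinset → g w = 0 := by
    intro w hw
    rw [hg]
    simp only
    rw [if_neg]
    rintro ⟨h1, h2⟩
    exact h2 (hcon w (fun h => hw (hT.mem_toFinset.mpr h)) h1)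
  have hg1 : ∀ w, g w ≤ 1 := by
    intro w
    rw [hg]
    simp only
    split_ifs <;> norm_num
  have hgn : ∀ w, 0 ≤ g w := by
    intro w
    rw [hg]
    simp only
    split_ifs <;> norm_num
  have hbd : ∀ s : ℝ, 1 < s → s ≤ 2 →
      (1 - 1 / (p : ℝ)) * Real.log (1 / (s - 1)) - C ≤ hT.toFinset.card := by
    intro s hs1 hs2
    refine (hC s hs1 hs2).trans ?_
    rw [tsum_eq_sum (s := hT.toFinset) (fun w hw => by rw [hg0 w hw, zero_mul])]
    calc ∑ w ∈ hT.toFinset, g w * (Ideal.absNorm w.asIdeal : ℝ) ^ (-s)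
        ≤ ∑ _w ∈ hT.toFinset, (1 : ℝ) := by
          refine Finset.sum_le_sum fun w _ => ?_
          have h1 : (Ideal.absNorm w.asIdeal : ℝ) ^ (-s) ≤ 1 :=
            Real.rpow_le_one_of_one_le_of_nonpos (Pool.Agent.Helper14.PP.norm_one_le w)
              (by linarith)
          have h2 : (0 : ℝ) ≤ (Ideal.absNorm w.asIdeal : ℝ) ^ (-s) :=
            Real.rpow_nonneg (Nat.cast_nonneg _) _
          calc g w * (Ideal.absNorm w.asIdeal : ℝ) ^ (-s) ≤ 1 * 1 :=
                mul_le_mul (hg1 w) h1 h2 zero_le_one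
            _ = 1 := one_mul 1
      _ = hT.toFinset.card := by simp
  have hp1 : (0 : ℝ) < 1 - 1 / (p : ℝ) := by
    have h2 : (1 : ℝ) < p := by exact_mod_cast hp.one_lt
    rw [sub_pos, div_lt_one (by linarith)]
    exact h2
  set N : ℝ := max 0 ((hT.toFinset.card + C + 1) / (1 - 1 / (p : ℝ))) with hN
  have hN0 : 0 ≤ N := le_max_left _ _
  have hN1 : (hT.toFinset.card + C + 1) / (1 - 1 / (p : ℝ)) ≤ N := le_max_right _ _
  have h3 := hbd (1 + Real.exp (-N)) (by linarith [Real.exp_pos (-N)])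
    (by linarith [Real.exp_le_one_iff.mpr (by linarith : -N ≤ 0)])
  have h4 : Real.log (1 / (1 + Real.exp (-N) - 1)) = N := by
    rw [add_sub_cancel_left, one_div, Real.exp_neg, inv_inv, Real.log_exp]
  rw [h4] at h3
  rw [div_le_iff₀ hp1] at hN1
  linarith

/-- Representatives of the `Z`-units modulo `p`-th powers. -/
theorem exists_reps (p : ℕ) [Fact p.Prime] (Z : Set (HeightOneSpectrum (𝓞 F))) (hZ : Z.Finite) :
    ∃ Y : Finset Fˣ, (∀ y ∈ Y, y ∈ Z.unit F) ∧ ∀ u ∈ Z.unit F, ∃ y ∈ Y, Pw p (u / y) := by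
  classical
  set A : Set ℕ := {n | ∃ Y : Finset Fˣ,
    Pool.Agent.Helper11.LE.Inc p (fun x => x ∈ Z.unit F) Y ∧ Y.card = n} with hA
  have hA0 : A.Nonempty := by
    refine ⟨0, ∅, ⟨?_, ?_⟩, rfl⟩
    · intro x hx
      exact absurd hx (Finset.notMem_empty x)
    · intro x hx
      exact absurd hx (Finset.notMem_empty x)
  have hA1 : BddAbove A := by
    refine ⟨p ^ (Z.ncard + Pool.Agent.Helper11.LE.urk p F), ?_⟩
    rintro n ⟨Y, hY, rfl⟩
    exact Pool.Agent.Helper88.LE.l_sun p F Z hZ Y hY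
  obtain ⟨Y, hY, hYc⟩ := Nat.sSup_mem hA0 hA1
  refine ⟨Y, hY.1, fun u hu => ?_⟩
  by_contra hcon
  push Not at hcon
  have hinv : ∀ a b : Fˣ, Pw p (a / b) → Pw p (b / a) := by
    rintro a b ⟨c, hc⟩
    refine ⟨c⁻¹, ?_⟩
    rw [inv_pow, ← hc, inv_div]
  have huY : u ∉ Y := by
    intro h
    apply hcon u h
    rw [div_self']
    exact ⟨1, by rw [one_pow]⟩
  have h1 : Pool.Agent.Helper11.LE.Inc p (fun x => x ∈ Z.unit F) (insert u Y) := by
    refine ⟨?_, ?_⟩
    · intro x hx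
      rw [Finset.mem_insert] at hx
      rcases hx with rfl | hx
      · exact hu
      · exact hY.1 x hx
    · intro x hx y hy hxy
      rw [Finset.mem_insert] at hx hy
      rcases hx with rfl | hx
      · rcases hy with rfl | hy
        · exact absurd rfl hxy
        · exact hcon y hy
      · rcases hy with rfl | hy
        · intro h
          exact hcon x hx (hinv _ _ h)
        · exact hY.2 x hx y hy hxy
  have h2 : (insert u Y).card ∈ A := ⟨insert u Y, h1, rfl⟩
  have h3 := le_csSup hA1 h2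
  rw [Finset.card_insert_of_notMem huY, ← hYc] at h3
  omega

end

theorem x_inj : Pool.Agent.Helper76.PB.X_INJ := by
  classical
  intro p hpF F _ _ ε hε Z hZ habp hPr w₀ hw₀
  have hp : p.Prime := hpF.out
  obtain ⟨Y, hY, hYr⟩ := exists_reps (F := F) p Z hZ
  have hfin : {w : HeightOneSpectrum (𝓞 F) | w.valuation F (p : F) ≠ 1}.Finite := by
    refine hZ.subset fun w hw => habp ?_
    have h1 : w.valuation F (p : F) ≤ 1 := by
      have h2 := w.valuation_le_one (K := F) (p : 𝓞 F)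
      simpa using h2
    exact lt_of_le_of_ne h1 hw
  have hbad : ∀ u : Fˣ, ∃ v, ¬ Pw p u → (v ∉ insert w₀ Z ∧ v.valuation F (p : F) = 1 ∧
      ¬ LocPow p v (u : F)) := by
    intro u
    by_cases hu : Pw p u
    · exact ⟨w₀, fun h => absurd hu h⟩
    · obtain ⟨v, hv⟩ := exists_bad p ε hε u hu hfin (insert w₀ Z) (hZ.insert w₀)
      exact ⟨v, fun _ => hv⟩
  choose b hb using hbad
  set V : Set (HeightOneSpectrum (𝓞 F)) := {v | ∃ u ∈ Y, ¬ Pw p u ∧ b u = v} with hV
  have hVfin : V.Finite := by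
    refine (Y.image b).finite_toSet.subset ?_
    rintro v ⟨u, hu, -, rfl⟩
    exact Finset.mem_coe.mpr (Finset.mem_image_of_mem b hu)
  have hVZ : ∀ v ∈ V, v ∉ Z ∧ v ≠ w₀ ∧ v.valuation F (p : F) = 1 := by
    rintro v ⟨u, hu, hpu, rfl⟩
    obtain ⟨h1, h2, -⟩ := hb u hpu
    exact ⟨fun h => h1 (Set.mem_insert_of_mem _ h),
      fun h => h1 (h ▸ Set.mem_insert w₀ Z), h2⟩
  refine ⟨Z ∪ V, hZ.union hVfin, Set.subset_union_left, ?_, ?_⟩
  · rintro (h | h)
    · exact hw₀ h
    · exact (hVZ w₀ h).2.1 rfl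
  · intro t ht hloc
    rw [mem_unit_iff] at ht
    -- the valuations of `t` at the primes of `V`
    have hdvd : ∀ v ∈ V, (p : ℤ) ∣ ordv v (t : F) := by
      intro v hv
      obtain ⟨y, hy⟩ := hloc v (Or.inr hv) (hVZ v hv).2.2
      have h1 := val_eq_one_of_sub v hy
      have hy0 : y ≠ 0 := by
        rintro rfl
        rw [zero_pow hp.ne_zero, mul_zero, map_zero] at h1
        exact zero_ne_one h1
      have h2 : (t : F) * y ^ p ≠ 0 := mul_ne_zero t.ne_zero (pow_ne_zero _ hy0)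
      have h3 := (ordv_eq_zero_iff v h2).2 h1
      rw [ordv_mul v t.ne_zero (pow_ne_zero _ hy0), ordv_pow] at h3
      exact ⟨-ordv v y, by linarith⟩
    set n : HeightOneSpectrum (𝓞 F) →₀ ℤ :=
      Finsupp.onFinset hVfin.toFinset (fun v => if v ∈ V then ordv v (t : F) / p else 0) (by
        intro v hv
        rw [Set.Finite.mem_toFinset]
        by_contra h
        exact hv (if_neg h)) with hn
    obtain ⟨x, hx⟩ := hPr n
    have hux : t / x ^ p ∈ Z.unit F := by
      rw [mem_unit_iff]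
      intro w hw
      have h1 : ((t / x ^ p : Fˣ) : F) = (t : F) * ((x : F) ^ p)⁻¹ := by
        rw [Units.val_div_eq_div_val, Units.val_pow_eq_pow_val, div_eq_mul_inv]
      have hxp : (x : F) ^ p ≠ 0 := pow_ne_zero _ x.ne_zero
      rw [h1, ordv_mul w t.ne_zero (inv_ne_zero hxp), ordv_inv w hxp, ordv_pow, hx w hw]
      have h2 : n w = if w ∈ V then ordv w (t : F) / p else 0 := rfl
      rw [h2]
      by_cases hwV : w ∈ V
      · rw [if_pos hwV, Int.mul_ediv_cancel' (hdvd w hwV)]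
        ring
      · rw [if_neg hwV, ht w (fun h => h.elim hw hwV)]
        ring
    obtain ⟨u, huY, ⟨z, hz⟩⟩ := hYr _ hux
    -- `t = u * (z * x) ^ p`
    have ht1 : t = u * (z * x) ^ p := by
      rw [div_eq_iff_eq_mul] at hz
      rw [div_eq_iff_eq_mul] at hz
      rw [hz, mul_pow]
      exact (mul_assoc _ _ _).trans (mul_left_comm _ _ _)
    by_cases hpu : Pw p u
    · obtain ⟨c, hc⟩ := hpu
      exact ⟨c * (z * x), by rw [ht1, hc, ← mul_pow]⟩
    · exfalso
      obtain ⟨h1, h2, h3⟩ := hb u hpu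
      have hbV : b u ∈ V := ⟨u, huY, hpu, rfl⟩
      have h4 := hloc (b u) (Or.inr hbV) h2
      apply h3
      rw [ht1, Units.val_mul, Units.val_pow_eq_pow_val] at h4
      exact (locPow_mul_pth (b u) (z * x).ne_zero).1 h4

end Pool.Agent.Helper86.PB
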